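import Pool.Agent.W_1b8d5d_p28.TFa
import Pool.Agent.W_1b8d5d_p.EdB7
import Pool.Agent.W_1b8d5d_p.EdInN
import Pool.Agent.W_1b8d5d_p.EdAll7
import Pool.Agent.W_1b8d5d_p.HfP99
import Pool.Agent.W_1b8d5d_h57p.TubeM

/-!
MP_1b8d5d_pr, Track P, proofs row 645, input (TF): the tubes at both edges of a slow window with a flat width. (helper28)
-/

namespace Pool.Agent.W_1b8d5d_p28

open MeasureTheory Set
open Pool.Agent.W_1b8d5d_h85 (V nm dir Edge Env grid ke wedges cost Bd sh rf cost_le le_cost)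
open Pool.Agent.W_1b8d5d_p Pool.Agent.W_1b8d5d_p7 Pool.Agent.W_1b8d5d_h57p
open Pool.Agent.W_1b8d5d_h4p (LawH)

noncomputable section

variable {F : Fm} {κ K A A0 A1 θ c0 : ℝ} {d : Dr} {Ds : Set Dr}

/-- (IN) for one direction with cells not thinner than the edges: the means inside of both edges. -/
def In1 (F : Fm) (d : Dr) (A A0 A1 c0 Ci c1 : ℝ) (n0 : ℕ) : Prop :=
  ∀ N : ℕ, n0 ≤ N → ∀ w S : ℕ, 1 ≤ w → 1 ≤ S → 2 * S + 1 ≤ N →
    (∀ sg : ℝ, sg = 1 ∨ sg = -1 → N * (vs A1 F d sg N - vs A0 F d sg N) ≤ w) →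
    2 * ((w : ℝ) + 2) ≤ c0 * (S * vA A F d N) → S * vA A F d N ≤ (6 / c0 + 1) * w → vA A F d S ≤ 8 * vA A F d N →
    ∀ y : ℤ, -(N * vl A1 F d N) + Ci * w ≤ y - d.v * N → y - d.v * N ≤ N * vr A1 F d N - Ci * w →
      e F d N y ≤ c1 * EE F d N

/-- (IN) for the family. -/
def InW (F : Fm) (Ds : Set Dr) (A A0 A1 c0 : ℝ) : Prop :=
  ∃ (Ci c1 : ℝ) (n0 : ℕ), 0 ≤ Ci ∧ 1 ≤ c1 ∧ ∀ d ∈ Ds, In1 F d A A0 A1 c0 Ci c1 n0

/-- The numbers of a window: `n = 2 ^ x`, `N = 2 ^ (x + h)`; `V` is the width, `w` the cell width, `e0` the inset of the slopes,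
`D'` the half width of the tubes. -/
structure Nm (c0 Ci Kw V D' e0 n N : ℝ) (w : ℕ) : Prop where
  V0 : 0 < V
  n1 : 4 ≤ n
  D0 : 0 < D'
  wl : D' ≤ Kw * w
  wu : Kw * w ≤ 2 * D'
  w1 : 1 ≤ w
  e : e0 * N = 4 * (Ci * w + 1)
  e0p : 0 < e0
  eV : 8 * e0 ≤ V
  room : 2 * ((w : ℝ) + 2) + c0 ≤ c0 * (n * V)
  S : (6 / c0 + 1) * w ≤ n / 4 * V

theorem nums {c0 Ci Kw V D D' v n N R : ℝ} (hc0 : 0 < c0) (hCi : 0 ≤ Ci) (hK1 : 256 * Ci ≤ Kw) (hK2 : 16 / c0 ≤ Kw)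
    (hK3 : 16 * (6 / c0 + 1) ≤ Kw) (hV : 0 < V) (hn : 4 ≤ n) (hnN : n ≤ N) (hD0 : 0 < D) (hD1 : D ≤ 1) (hv : 0 < v)
    (hvV : v ≤ 2 * V) (hD' : D' = D * (v * n)) (hDK : Kw ≤ D') (hnV1 : 64 ≤ n * V) (hnV2 : 8 / c0 + 2 ≤ n * V)
    {w : ℕ} (hw : w = ⌈D' / Kw⌉₊) {e0 : ℝ} (he : e0 = 4 * (Ci * w + 1) / N) : Nm c0 Ci Kw V D' e0 n N w := by
  have hK : 0 < Kw := lt_of_lt_of_le (by positivity) hK2
  have hn0 : 0 < n := by linarith
  have hN0 : 0 < N := by linarith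
  have hD'0 : 0 < D' := by linarith
  have hw1 : D' / Kw ≤ w := by
    rw [hw]
    exact Nat.le_ceil _
  have hw2 : (w : ℝ) < D' / Kw + 1 := by
    rw [hw]
    exact Nat.ceil_lt_add_one (by positivity)
  have hq : 0 < D' / Kw := by positivity
  have hw1' : D' ≤ Kw * w := by
    rw [div_le_iff₀ hK] at hw1
    linarith
  have hw2' : Kw * w ≤ 2 * D' := by
    have h1 : Kw * w ≤ Kw * (D' / Kw + 1) := mul_le_mul_of_nonneg_left hw2.le hK.le
    have e1 : Kw * (D' / Kw + 1) = D' + Kw := by field_simp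
    linarith
  have hw0 : (0 : ℝ) < w := lt_of_lt_of_le hq hw1
  have hnV : 0 < n * V := by positivity
  -- `D' ≤ 2 n V`
  have hD2 : D' ≤ 2 * (n * V) := by
    have h1 : D * (v * n) ≤ 1 * (v * n) := mul_le_mul_of_nonneg_right hD1 (by positivity)
    have h2 : v * n ≤ 2 * V * n := mul_le_mul_of_nonneg_right hvV hn0.le
    rw [hD']
    linarith
  have hwV : Kw * w ≤ 4 * (n * V) := by linarith
  have hwV2 : ∀ r : ℝ, 0 ≤ r → r ≤ Kw → r * w ≤ 4 * (n * V) := fun r hr hr2 =>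
    (mul_le_mul_of_nonneg_right hr2 hw0.le).trans hwV
  have hC := hwV2 (256 * Ci) (by positivity) hK1
  have h16 := hwV2 (16 / c0) (by positivity) hK2
  have hS := hwV2 (16 * (6 / c0 + 1)) (by positivity) hK3
  have heN : e0 * N = 4 * (Ci * w + 1) := by
    rw [he]
    field_simp
  have he0 : 0 < e0 := by
    rw [he]
    positivity
  refine ⟨hV, hn, hD'0, hw1', hw2', ?_, heN, he0, ?_, ?_, ?_⟩
  · have : (0 : ℝ) < w := hw0
    exact_mod_cast this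
  · have h1 : 8 * e0 * n ≤ V * n := by
      have h2 : e0 * n ≤ e0 * N := mul_le_mul_of_nonneg_left hnN he0.le
      nlinarith
    exact le_of_mul_le_mul_right h1 hn0
  · have h1 : 16 * (w : ℝ) ≤ c0 * (4 * (n * V)) := by
      have h2 := mul_le_mul_of_nonneg_left h16 hc0.le
      have e1 : c0 * (16 / c0 * w) = 16 * w := by field_simp
      linarith
    have h3 : 8 + 2 * c0 ≤ c0 * (n * V) := by
      have h2 := mul_le_mul_of_nonneg_left hnV2 hc0.le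
      have e1 : c0 * (8 / c0 + 2) = 8 + 2 * c0 := by field_simp
      linarith
    linarith
  · linarith

/-- The tube slopes of a window. -/
theorem cheap_in (hD : Dirs F κ K Ds) (hd : d ∈ Ds) (hA : 0 < A) (hc0 : 0 < c0) {Ci c1 : ℝ} {nI : ℕ}
    (hin : In1 F d A A0 A1 c0 Ci c1 nI) (hCi : 0 ≤ Ci) {Kw V D' e0 : ℝ} {w x h L m : ℕ} {y : ℝ}
    (hN : Nm c0 Ci Kw V D' e0 (2 ^ x) (2 ^ (x + h)) w) (hV : V = vA A F d (2 ^ (x + L)))
    (hm4 : 2 ^ (x + h) ≤ 4 * m) (hxm : 2 ^ x ≤ m) (hmI : nI ≤ m) (hm1 : vA A F d m ≤ 1)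
    (hVm : V ≤ vA A F d m) (hVm2 : vA A F d m ≤ 2 * V) (hV2 : vA A F d (2 ^ x) ≤ (1 + y) * V) (hy0 : 0 < y) (hy1 : y ≤ 1)
    (hyD : y * (c0 * Kw * (2 ^ x * V)) ≤ D')
    (hs : gg F d (x + L) ≤ gg F d x + θ * L) (hL : θ * L + 1 ≤ L)
    (hsg : ∀ sg : ℝ, sg = 1 ∨ sg = -1 → vs A F d sg (2 ^ (x + L)) ≤ vs A0 F d sg m ∧ vs A0 F d sg m ≤ vs A1 F d sg m ∧
      m * (vs A1 F d sg m - vs A F d sg (2 ^ (x + L))) ≤ w)
    {sg : ℝ} (hsg0 : sg = 1 ∨ sg = -1) {z : ℤ} (hz : |(z : ℝ) - (d.v + sg * (vs A F d sg (2 ^ (x + L)) - e0)) * m| ≤ 1) :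
    e F d m z ≤ c1 * EE F d m := by
  have hm : 1 ≤ m := Nat.one_le_two_pow.trans hxm
  have hm0 : (0 : ℝ) < m := by exact_mod_cast hm
  have hxm' : (2 : ℝ) ^ x ≤ m := by exact_mod_cast hxm
  have hx0 : (0 : ℝ) < 2 ^ x := by positivity
  have hV0 := hN.V0
  have hw1 : (1 : ℝ) ≤ w := by exact_mod_cast hN.w1
  have hv0 : 0 < vA A F d m := hV0.trans_le hVm
  -- the connections
  obtain ⟨S, hS1, hSm, hSr, hSr'⟩ := exists_S7 hD hA hd hc0 hm hN.w1 hm1 (by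
    have h1 := hN.room
    have h2 : 2 ^ x * V ≤ m * vA A F d m := mul_le_mul hxm' hVm hV0.le hm0.le
    have h3 : c0 * (2 ^ x * V) ≤ c0 * (m * vA A F d m) := mul_le_mul_of_nonneg_left h2 hc0.le
    have h4 : c0 * vA A F d m ≤ c0 * 1 := mul_le_mul_of_nonneg_left hm1 hc0.le
    linarith)
  have hS0 : (0 : ℝ) < S := by exact_mod_cast hS1
  have hS4 : (S : ℝ) ≤ 2 ^ x / 4 := by
    have h1 : (S : ℝ) * V ≤ S * vA A F d m := mul_le_mul_of_nonneg_left hVm hS0.le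
    have h2 := hN.S
    exact le_of_mul_le_mul_right (h1.trans (hSr'.trans h2)) hV0
  have hSx : S ≤ 2 ^ x := by
    have h1 : (S : ℝ) ≤ 2 ^ x := by linarith
    exact_mod_cast h1
  have h2S : 2 * S + 1 ≤ m := by
    have h1 : (2 : ℝ) * S + 1 ≤ m := by
      have := hN.n1
      linarith
    exact_mod_cast h1
  have hSy : y * 2 ^ x ≤ S := by
    have h1 : 2 * (w : ℝ) ≤ c0 * (S * (2 * V)) := by
      have h3 : c0 * (S * vA A F d m) ≤ c0 * (S * (2 * V)) :=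
        mul_le_mul_of_nonneg_left (mul_le_mul_of_nonneg_left hVm2 hS0.le) hc0.le
      linarith
    have hK : 0 < Kw := by
      have h3 := hN.wl
      have h4 := hN.D0
      by_contra hcon
      rw [not_lt] at hcon
      nlinarith
    have h2 : D' ≤ Kw * (c0 * (S * V)) := by
      have h3 : Kw * w ≤ Kw * (c0 * (S * V)) := mul_le_mul_of_nonneg_left (by linarith) hK.le
      linarith [hN.wl]
    have h3 : (y * 2 ^ x) * (c0 * Kw * V) ≤ S * (c0 * Kw * V) := by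
      calc (y * 2 ^ x) * (c0 * Kw * V) = y * (c0 * Kw * (2 ^ x * V)) := by ring
        _ ≤ D' := hyD
        _ ≤ Kw * (c0 * (S * V)) := h2
        _ = _ := by ring
    exact le_of_mul_le_mul_right h3 (by positivity)
  have hvS : vA A F d S ≤ 8 * vA A F d m := by
    have h1 := below hD hd hA hs hL hS1 hSx
    rw [← hV] at h1
    have h2 : vA A F d (2 ^ x) - V ≤ y * V := by linarith
    have h3 : (vA A F d (2 ^ x) - V) * (2 ^ x / S) ≤ V := by
      calc (vA A F d (2 ^ x) - V) * (2 ^ x / S) ≤ (y * V) * (2 ^ x / S) :=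
            mul_le_mul_of_nonneg_right h2 (by positivity)
        _ = V * (y * 2 ^ x / S) := by ring
        _ ≤ V * 1 := by
            refine mul_le_mul_of_nonneg_left ?_ hV0.le
            rw [div_le_one hS0]
            exact hSy
        _ = V := mul_one V
    have h4 : (1 + y) * V ≤ 2 * V := mul_le_mul_of_nonneg_right (by linarith) hV0.le
    linarith
  -- the line
  have hp := hsg 1 (Or.inl rfl)
  have hm' := hsg (-1) (Or.inr rfl)
  have hVs : V = vs A F d 1 (2 ^ (x + L)) + vs A F d (-1) (2 ^ (x + L)) := by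
    rw [hV]
    exact vA_vs A F d _
  have heN : Ci * w + 1 ≤ e0 * m := by
    have h1 := hN.e
    have h2 : (2 : ℝ) ^ (x + h) ≤ 4 * m := by exact_mod_cast hm4
    have h3 : e0 * 2 ^ (x + h) ≤ e0 * (4 * m) := mul_le_mul_of_nonneg_left h2 hN.e0p.le
    linarith
  have hVm0 : 2 * (e0 * m) ≤ V * m := by
    have h1 := mul_le_mul_of_nonneg_right hN.eV hm0.le
    have h2 : 0 < e0 * m := mul_pos hN.e0p hm0
    linarith
  obtain ⟨tp, htp⟩ : ∃ tp, tp = vs A F d 1 (2 ^ (x + L)) := ⟨_, rfl⟩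
  obtain ⟨tm, htm⟩ : ∃ tm, tm = vs A F d (-1) (2 ^ (x + L)) := ⟨_, rfl⟩
  rw [← htp] at hp
  rw [← htm] at hm'
  rw [← htp, ← htm] at hVs
  have ha : m * tp ≤ m * vr A1 F d m := by
    rw [← vs_one]
    exact mul_le_mul_of_nonneg_left (hp.1.trans hp.2.1) hm0.le
  have hb : m * tm ≤ m * vl A1 F d m := by
    rw [← vs_neg]
    exact mul_le_mul_of_nonneg_left (hm'.1.trans hm'.2.1) hm0.le
  have hVs' : V * m = m * tp + m * tm := by
    rw [hVs]
    ring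
  rw [abs_le] at hz
  have key : -(m * vl A1 F d m) + Ci * w ≤ z - d.v * m ∧ z - d.v * m ≤ m * vr A1 F d m - Ci * w := by
    rcases hsg0 with rfl | rfl
    · rw [← htp] at hz
      have e1 : (z : ℝ) - (d.v + 1 * (tp - e0)) * m = z - d.v * m - m * tp + e0 * m := by ring
      rw [e1] at hz
      constructor <;> linarith [hz.1, hz.2]
    · rw [← htm] at hz
      have e1 : (z : ℝ) - (d.v + -1 * (tm - e0)) * m = z - d.v * m + m * tm - e0 * m := by ring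
      rw [e1] at hz
      constructor <;> linarith [hz.1, hz.2]
  refine hin m hmI w S hN.w1 hS1 h2S ?_ hSr hSr' hvS z key.1 key.2
  intro sg hsg1
  have h1 := hsg sg hsg1
  have h2 : (m : ℝ) * (vs A1 F d sg m - vs A0 F d sg m) ≤ m * (vs A1 F d sg m - vs A F d sg (2 ^ (x + L))) :=
    mul_le_mul_of_nonneg_left (by linarith) hm0.le
  linarith

/-- The price outside of the tube. -/
theorem dear_out (hD : Dirs F κ K Ds) (hd : d ∈ Ds) (hA0 : 0 ≤ A0) (hA1 : A0 < A1) {Ci Kw V D' e0 C R : ℝ} {w x h M : ℕ}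
    {n : ℝ} (hCi : 0 ≤ Ci) (hN : Nm c0 Ci Kw V D' e0 n (2 ^ (x + h)) w) (hK0 : 16 ≤ Kw) (hK1 : 64 * (R * Ci) ≤ Kw) (hR : 1 ≤ R)
    (hC : 4 * C < (A1 - A0) * Kw) (hDR : 24 + 32 * R ≤ D') (hM : (M : ℝ) ≤ R * 2 ^ (x + h)) (hM1 : 1 ≤ M) {sg t : ℝ}
    (hsg : sg = 1 ∨ sg = -1) (ht : M * (vs A1 F d sg M - t) ≤ w) (hw : M * (vs A1 F d sg M - vs A0 F d sg M) ≤ w) {z : ℤ}
    (hz : |(z : ℝ) - ((d.v + sg * (t - e0)) * M + sg * D')| ≤ 3) : C * EE F d M < e F d M z := by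
  have hM0 : (0 : ℝ) < M := by exact_mod_cast hM1
  have hw1 : (1 : ℝ) ≤ w := by exact_mod_cast hN.w1
  have hE := EE_pos F d M
  have hK : 0 < Kw := by linarith
  have hsg2 : sg * sg = 1 := by rcases hsg with rfl | rfl <;> norm_num
  have h1 : -3 ≤ sg * ((z : ℝ) - ((d.v + sg * (t - e0)) * M + sg * D')) := by
    rw [abs_le] at hz
    rcases hsg with rfl | rfl
    · linarith [hz.1]
    · linarith [hz.2]
  have e1 : sg * ((z : ℝ) - ((d.v + sg * (t - e0)) * M + sg * D')) =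
      sg * (z - (d.v + sg * vs A1 F d sg M) * M) + (sg * sg) * (M * (vs A1 F d sg M - t)) + (sg * sg) * (e0 * M) -
        (sg * sg) * D' := by ring
  rw [e1, hsg2] at h1
  have h2 : e0 * M ≤ R * (4 * (Ci * w + 1)) := by
    rw [← hN.e]
    calc e0 * M ≤ e0 * (R * 2 ^ (x + h)) := mul_le_mul_of_nonneg_left hM hN.e0p.le
      _ = _ := by ring
  have h3 : 16 * (w : ℝ) ≤ 2 * D' := (mul_le_mul_of_nonneg_right hK0 (by linarith)).trans hN.wu
  have h4 : 64 * (R * Ci) * w ≤ 2 * D' := (mul_le_mul_of_nonneg_right hK1 (by linarith)).trans hN.wu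
  have h5 : D' / 2 ≤ sg * (z - (d.v + sg * vs A1 F d sg M) * M) := by
    linarith
  have h6 := ed_out' (w := (w : ℝ)) hD hd hsg hA0 hA1 hM1 le_rfl (ρ := Kw / 4) (by linarith) (c := 1) (c2 := 1) zero_le_one zero_le_one
    (by rw [one_mul]; exact hw) z (by
      have := hN.wu
      linarith)
  have h7 : (A1 - A0) * (Kw / 4) ≤ e F d M z / EE F d M := by
    calc (A1 - A0) * (Kw / 4) = 1 * (A1 - A0) * 1 * (Kw / 4) := by ring
      _ ≤ 1 / EE F d M * e F d M z := h6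
      _ = _ := by ring
  have h8 : C < e F d M z / EE F d M := by linarith
  rwa [lt_div_iff₀ hE] at h8

/-- A wider tube. -/
theorem XT_mono {D D' : ℝ} (hDD : D ≤ D') {T : ℕ} {z : ℤ} (h : HasT F d D T z) :
    HasT F d D' T z ∧ ∀ η, XT F d D' η 0 T z ≤ XT F d D η 0 T z := by
  have hsub : F.co.slab (0 : ℤ) (0 + T) ∩ TbE F d 0 D ⊆ F.co.slab 0 (0 + T) ∩ TbE F d 0 D' := by
    refine Set.inter_subset_inter_right _ fun e he => ?_
    exact ⟨he.1.trans_le hDD, he.2.trans_le hDD⟩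
  refine ⟨?_, fun η => ?_⟩
  · obtain ⟨⟨w, hw⟩⟩ := h
    exact ⟨⟨w, fun e he => hsub (hw e he)⟩⟩
  · have h1 := TR_anti (bd_tau F η) F.a0.le (hasT_at h 0) (S' := F.co.slab (0 : Pt).1 ((0 : Pt).1 + T) ∩ TbE F d 0 D') hsub
    unfold XT
    linarith

theorem XT_int {D : ℝ} {T : ℕ} {z : ℤ} (h : HasT F d D T z) : Integrable (fun η => XT F d D η 0 T z) (law F) := by
  obtain ⟨⟨w, hw⟩⟩ := hasT_at h 0
  refine Integrable.of_bound (XT_meas F d D 0 T z).aestronglyMeasurable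
    (F.b * w.length + |al F.co d * T + be F.co d * z|) (Filter.Eventually.of_forall fun η => ?_)
  have h1 := TR_le (bd_tau F η) F.a0.le w hw
  have h2 := cost_le (bd_tau F η) w
  have h3 : 0 ≤ TR (F.co.slab (0 : Pt).1 ((0 : Pt).1 + T) ∩ TbE F d 0 D) (F.tau η) (F.co.vt 0) (F.co.vt (0 + ((T : ℤ), z))) :=
    le_TR (hasT_at h 0) fun w' _ => (mul_nonneg F.a0.le (Nat.cast_nonneg _)).trans (le_cost (bd_tau F η) w')
  unfold XT
  rw [Real.norm_eq_abs]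
  refine (abs_sub _ _).trans (add_le_add ?_ le_rfl)
  rw [abs_of_nonneg h3]
  exact h1.trans h2

/-- **(TF)**, general form. -/
theorem tf0 (hD : Dirs F κ K Ds) (hmc : MCR F Ds) (hVN : VN F Ds) (hR : Rate F Ds) (hA : 0 < A) (hA0 : A ≤ A0) (hA1 : A0 < A1)
    (hc0 : 0 < c0) (hin : InW F Ds A A0 A1 c0) (hθ : θ < 1) : TFH θ A F Ds := by
  obtain ⟨Ci, c1, nI, hCi, hc1, hin⟩ := hin
  obtain ⟨R, n0, C, b0, s0, hR1, hn0, hC1, hb0, hs0, htube⟩ := tube_line0 hD hmc hVN (ε := 1 / 2) (c := c1)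
    (by norm_num) le_rfl hc1
  obtain ⟨M, hM⟩ : ∃ M : ℕ, M = 2 * R + 1 := ⟨_, rfl⟩
  have hM1 : 1 ≤ M := by omega
  have hM1' : (1 : ℝ) ≤ M := by exact_mod_cast hM1
  have hA1' : 0 < A1 := by linarith
  have ha : 0 < A1 - A0 := by linarith
  have h1θ : 0 < 1 - θ := by linarith
  obtain ⟨Kw, hKw⟩ : ∃ Kw : ℝ, Kw = 256 * Ci + 16 / c0 + 16 * (6 / c0 + 1) + 64 * (M * Ci) + 4 * C / (A1 - A0) + 17 := ⟨_, rfl⟩
  have k1 : 0 ≤ 256 * Ci := by positivity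
  have k2 : 0 < 16 / c0 := by positivity
  have k3 : 0 < 16 * (6 / c0 + 1) := by positivity
  have k4 : 0 ≤ 64 * (M * Ci) := by positivity
  have k5 : 0 < 4 * C / (A1 - A0) := by positivity
  have hK : 0 < Kw := by linarith
  have hKC : 4 * C < (A1 - A0) * Kw := by
    have h1 : 4 * C / (A1 - A0) < Kw := by linarith
    rw [div_lt_iff₀ ha] at h1
    linarith
  obtain ⟨h0, hh0⟩ := exists_nat_ge ((Real.logb 2 (A1 / A) + θ * M + 2) / (1 - θ))
  refine ⟨1 / 4, C * M + 1, max h0 2, by norm_num, by positivity, ?_⟩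
  intro D hD0 h hh
  have hh2 : 2 ≤ h := (le_max_right _ _).trans hh
  have hh1 : h0 ≤ h := (le_max_left _ _).trans hh
  obtain ⟨D1, hD1⟩ : ∃ D1 : ℝ, D1 = min D 1 := ⟨_, rfl⟩
  have hD10 : 0 < D1 := by rw [hD1]; exact lt_min hD0 one_pos
  have hD11 : D1 ≤ 1 := by rw [hD1]; exact min_le_right _ _
  have hD1D : D1 ≤ D := by rw [hD1]; exact min_le_left _ _
  obtain ⟨q, hq⟩ : ∃ q : ℕ, q = h + M := ⟨_, rfl⟩
  have hq1 : 1 ≤ q := by omega
  have hqr : A1 * (2 : ℝ) ^ (θ * q + 2) ≤ A * 2 ^ h := by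
    have h1 : (Real.logb 2 (A1 / A) + θ * M + 2) ≤ (1 - θ) * h := by
      have h2 : (Real.logb 2 (A1 / A) + θ * M + 2) / (1 - θ) ≤ h := hh0.trans (by exact_mod_cast hh1)
      rw [div_le_iff₀ h1θ] at h2
      linarith
    have h2 : A1 = A * (2 : ℝ) ^ Real.logb 2 (A1 / A) := by
      rw [Real.rpow_logb two_pos (by norm_num) (by positivity)]
      field_simp
    have h3 : A1 * (2 : ℝ) ^ (θ * q + 2) = A * 2 ^ (Real.logb 2 (A1 / A) + (θ * q + 2)) := by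
      rw [Real.rpow_add two_pos (Real.logb 2 (A1 / A)) (θ * q + 2), ← mul_assoc, ← h2]
    rw [h3]
    refine mul_le_mul_of_nonneg_left ?_ hA.le
    rw [← Real.rpow_natCast 2 h]
    refine Real.rpow_le_rpow_of_exponent_le one_le_two ?_
    rw [hq]
    push_cast
    linarith
  obtain ⟨L0, hL0⟩ := exists_nat_ge ((q : ℝ) / (1 - θ))
  obtain ⟨L, hL⟩ : ∃ L : ℕ, L = L0 + q := ⟨_, rfl⟩
  have hLq : q ≤ L := by omega
  have hL1 : θ * L + q ≤ L := by
    have h1 : (q : ℝ) / (1 - θ) ≤ L := hL0.trans (by exact_mod_cast (by omega : L0 ≤ L))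
    rw [div_le_iff₀ h1θ] at h1
    linarith
  have hL2 : θ * L + 1 ≤ L := by
    have : (1 : ℝ) ≤ q := by exact_mod_cast hq1
    linarith
  obtain ⟨y, hy⟩ : ∃ y : ℝ, y = D1 / ((c0 + 1) * Kw * 2 ^ q) := ⟨_, rfl⟩
  have hy0 : 0 < y := by rw [hy]; positivity
  have hq2 : (1 : ℝ) ≤ 2 ^ q := one_le_pow₀ one_le_two
  have hyK : y * ((c0 + 1) * Kw * 2 ^ q) = D1 := by rw [hy, div_mul_cancel₀ _ (by positivity)]
  have hy1 : y ≤ 1 := by
    rw [hy, div_le_one (by positivity)]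
    have h1 : 1 ≤ (c0 + 1) * Kw := by nlinarith
    have h2 : 1 ≤ (c0 + 1) * Kw * 2 ^ q := by nlinarith
    linarith
  have hyc : y * (c0 * Kw) ≤ D1 := by
    rw [← hyK]
    refine mul_le_mul_of_nonneg_left ?_ hy0.le
    have h1 : (c0 + 1) * Kw * 1 ≤ (c0 + 1) * Kw * 2 ^ q := mul_le_mul_of_nonneg_left hq2 (by positivity)
    nlinarith
  have hyq : Kw * (y * 2 ^ q) ≤ D1 := by
    rw [← hyK]
    have h1 : 0 ≤ y * (c0 * Kw * 2 ^ q) := by positivity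
    nlinarith
  obtain ⟨Q, hQ⟩ : ∃ Q : ℝ, Q = (Kw + 24 + 32 * M) / D1 + 2 * (66 + 8 / c0) := ⟨_, rfl⟩
  have hCr := Cr_pos F
  obtain ⟨n1, hn1, hwl⟩ := hD.w_large hR hA (Q / Cr F)
  obtain ⟨n2, hn2, hvs⟩ := hD.vA_small hR hA (ε := min 1 s0) (lt_min one_pos hs0)
  obtain ⟨n3, hn3, hre⟩ := Rate.one hR (ε := b0 / M) (by positivity)
  refine ⟨L, max (max (max n0 nI) (max n1 n2)) (max n3 2), Real.logb 2 (1 + y), Real.logb_pos one_lt_two (by linarith), ?_⟩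
  intro d hd x hx hslow hflat
  have hxx : max (max (max n0 nI) (max n1 n2)) (max n3 2) ≤ 2 ^ x := hx.trans Nat.lt_two_pow_self.le
  have hx0 : n0 ≤ 2 ^ x := by omega
  have hxI : nI ≤ 2 ^ x := by omega
  have hx1 : n1 ≤ 2 ^ x := by omega
  have hx2 : n2 ≤ 2 ^ x := by omega
  have hx3 : n3 ≤ 2 ^ x := by omega
  have hx4 : 2 ≤ x := by omega
  have hp0 : (0 : ℝ) < 2 ^ x := by positivity
  have hp4 : (4 : ℝ) ≤ 2 ^ x := by
    calc (4 : ℝ) = 2 ^ 2 := by norm_num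
      _ ≤ 2 ^ x := pow_le_pow_right₀ one_le_two hx4
  have hNn : (2 : ℝ) ^ x ≤ 2 ^ (x + h) := pow_le_pow_right₀ one_le_two (by omega)
  obtain ⟨hb, hVv, hvV, hfl⟩ := flat hD hd hA hA0 hA1.le (j0 := 0) hy0 (hslow L le_rfl) (hslow q hLq) hL1 hh2 hqr
    (Nat.zero_le x) (by rw [Nat.sub_zero]; exact hflat)
  obtain ⟨V, hV⟩ : ∃ V, V = vA A F d (2 ^ (x + L)) := ⟨_, rfl⟩
  obtain ⟨v, hv⟩ : ∃ v, v = vA A F d (2 ^ x) := ⟨_, rfl⟩
  rw [← hV] at hVv hvV hfl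
  rw [← hv] at hVv hvV
  have hV0 : 0 < V := by rw [hV]; exact hD.vA_pos hd hA Nat.one_le_two_pow
  have hv0 : 0 < v := hV0.trans_le hVv
  have hv2V : v ≤ 2 * V := by
    have : (1 + y) * V ≤ 2 * V := mul_le_mul_of_nonneg_right (by linarith) hV0.le
    linarith
  have hQv : Q ≤ 2 ^ x * v := by
    have h1 := hwl d hd (2 ^ x) hx1
    have h2 := Cr_le_EE F d (2 ^ x)
    have hQ0 : 0 ≤ Q := by rw [hQ]; positivity
    have h3 : Q / Cr F * Cr F ≤ Q / Cr F * EE F d (2 ^ x) := mul_le_mul_of_nonneg_left h2 (by positivity)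
    rw [div_mul_cancel₀ _ hCr.ne'] at h3
    push_cast at h1
    rw [← hv] at h1
    linarith
  have hnV1 : 66 + 8 / c0 ≤ 2 ^ x * V := by
    have h1 : 2 ^ x * v ≤ 2 ^ x * (2 * V) := mul_le_mul_of_nonneg_left hv2V hp0.le
    have h2 : 0 ≤ (Kw + 24 + 32 * M) / D1 := by positivity
    linarith
  obtain ⟨D', hD'⟩ : ∃ D', D' = D1 * (v * 2 ^ x) := ⟨_, rfl⟩
  have hD'2 : Kw + 24 + 32 * M ≤ D' := by
    have h1 : D1 * Q ≤ D1 * (2 ^ x * v) := mul_le_mul_of_nonneg_left hQv hD10.le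
    have h2 : D1 * ((Kw + 24 + 32 * M) / D1) = Kw + 24 + 32 * M := by field_simp
    have h3 : 0 ≤ D1 * (2 * (66 + 8 / c0)) := by positivity
    rw [hQ, mul_add, h2] at h1
    rw [hD']
    linarith
  obtain ⟨w, hw⟩ : ∃ w, w = ⌈D' / Kw⌉₊ := ⟨_, rfl⟩
  obtain ⟨e0, he0⟩ : ∃ e0 : ℝ, e0 = 4 * (Ci * w + 1) / 2 ^ (x + h) := ⟨_, rfl⟩
  have hk8 : 0 < 8 / c0 := by positivity
  have hN : Nm c0 Ci Kw V D' e0 (2 ^ x) (2 ^ (x + h)) w :=
    nums (D := D1) (R := M) hc0 hCi (by linarith) (by linarith) (by linarith) hV0 hp4 hNn hD10 hD11 hv0 hv2V hD' (by linarith)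
      (by linarith) (by linarith) hw he0
  have hVs : V = vs A F d 1 (2 ^ (x + L)) + vs A F d (-1) (2 ^ (x + L)) := by
    rw [hV]
    exact vA_vs A F d _
  have htp : 0 ≤ vs A F d 1 (2 ^ (x + L)) := vs_nonneg hD hd (Or.inl rfl) hA.le
  have htm : 0 ≤ vs A F d (-1) (2 ^ (x + L)) := vs_nonneg hD hd (Or.inr rfl) hA.le
  have heV := hN.eV
  have he0p := hN.e0p
  have habs : ∀ sg : ℝ, sg = 1 ∨ sg = -1 → |sg * (vs A F d sg (2 ^ (x + L)) - e0)| ≤ V := by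
    intro sg hsg
    rcases hsg with rfl | rfl
    · rw [one_mul, abs_le]
      constructor <;> linarith
    · rw [neg_one_mul, abs_neg, abs_le]
      constructor <;> linarith
  -- the widths at the durations of the window
  have hwin : ∀ m : ℕ, 2 ^ (x + h) ≤ 4 * m → m ≤ 2 ^ (x + q) → ∀ sg : ℝ, sg = 1 ∨ sg = -1 →
      vs A F d sg (2 ^ (x + L)) ≤ vs A0 F d sg m ∧ vs A0 F d sg m ≤ vs A1 F d sg m ∧
        m * (vs A1 F d sg m - vs A F d sg (2 ^ (x + L))) ≤ w := by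
    intro m hm1 hm2 sg hsg
    obtain ⟨-, -, -, h1⟩ := hfl m hm1 hm2
    obtain ⟨h2, h3⟩ := h1 sg hsg
    refine ⟨h2, vs_mono hD hd hsg (hA.le.trans hA0) hA1.le, ?_⟩
    have h4 : (m : ℝ) ≤ 2 ^ x * 2 ^ q := by
      rw [← pow_add]
      exact_mod_cast hm2
    have h5 : (m : ℝ) * (vs A1 F d sg m - vs A F d sg (2 ^ (x + L))) ≤ (2 ^ x * 2 ^ q) * (y * V) := by
      calc (m : ℝ) * (vs A1 F d sg m - vs A F d sg (2 ^ (x + L))) ≤ m * (y * V) :=
            mul_le_mul_of_nonneg_left (by linarith) (Nat.cast_nonneg _)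
        _ ≤ _ := mul_le_mul_of_nonneg_right h4 (by positivity)
    have h6 : Kw * ((2 ^ x * 2 ^ q) * (y * V)) ≤ Kw * w := by
      calc Kw * ((2 ^ x * 2 ^ q) * (y * V)) = Kw * (y * 2 ^ q) * (2 ^ x * V) := by ring
        _ ≤ D1 * (2 ^ x * V) := mul_le_mul_of_nonneg_right hyq (by positivity)
        _ ≤ D1 * (2 ^ x * v) := mul_le_mul_of_nonneg_left (mul_le_mul_of_nonneg_left hVv hp0.le) hD10.le
        _ = D' := by rw [hD']; ring
        _ ≤ Kw * w := hN.wl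
    exact h5.trans (le_of_mul_le_mul_left h6 hK)
  -- the tubes
  have htb : ∀ sg : ℝ, sg = 1 ∨ sg = -1 → ∀ T : ℕ, 2 ^ (x + h) ≤ 4 * T → T ≤ 2 ^ (x + h) → ∀ z : ℤ,
      |(z : ℝ) - (d.v + sg * (vs A F d sg (2 ^ (x + L)) - e0)) * T| ≤ 1 →
      HasT F (wv d (d.v + sg * (vs A F d sg (2 ^ (x + L)) - e0))) D' T z ∧
        ∫ η, XT F (wv d (d.v + sg * (vs A F d sg (2 ^ (x + L)) - e0))) D' η 0 T z ∂(law F) ≤ C * EE F d (M * T) := by
    intro sg hsg T hT1 hT2 z hz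
    have hxT : 2 ^ x ≤ T := by
      have h3 : 2 ^ (x + 2) ≤ 2 ^ (x + h) := Nat.pow_le_pow_right (by norm_num) (by omega)
      have h4 : 2 ^ (x + 2) = 4 * 2 ^ x := by ring
      omega
    have hMT : M * T ≤ 2 ^ (x + q) := by
      have h1 : M ≤ 2 ^ M := Nat.lt_two_pow_self.le
      calc M * T ≤ 2 ^ M * 2 ^ (x + h) := Nat.mul_le_mul h1 hT2
        _ = 2 ^ (x + q) := by rw [hq]; ring
    have hTM : T ≤ M * T := Nat.le_mul_of_pos_left T hM1
    have hres := htube d hd T (hx0.trans hxT) (sg * (vs A F d sg (2 ^ (x + L)) - e0)) D' (EE F d (M * T)) sg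
      ?_ hN.D0 hsg (EE_mono F d hTM) ?_ ?_ ?_ z hz
    · exact ⟨hres.2.1, hres.2.2⟩
    · -- small slope
      have h1 := habs sg hsg
      have h2 := hvs d hd (2 ^ x) hx2
      rw [← hv] at h2
      exact h1.trans (hVv.trans (h2.trans (min_le_right _ _)))
    · -- small unit
      have h1 := hre d hd (M * T) ((hx3.trans hxT).trans hTM)
      push_cast at h1
      have e1 : b0 / M * (M * T) = b0 * T := by field_simp
      rwa [e1] at h1
    · -- cheap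
      intro m hm1 hm2 y' hy'
      rw [← hM] at hm2
      have hm4 : 2 ^ (x + h) ≤ 4 * m := by omega
      have hmq : m ≤ 2 ^ (x + q) := hm2.trans hMT
      obtain ⟨g1, g2, g3, -⟩ := hfl m hm4 hmq
      have h1 := cheap_in hD hd hA hc0 (hin d hd) hCi (y := y) (θ := θ) hN hV hm4 g1 (hxI.trans g1)
        ((hvs d hd m (hx2.trans g1)).trans (min_le_left _ _)) g2
        (g3.trans (mul_le_mul_of_nonneg_right (by linarith) hV0.le)) (by rw [← hv]; exact hvV) hy0 hy1 ?_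
        (hslow L le_rfl) hL2 (hwin m hm4 hmq) hsg hy'
      · refine h1.trans (mul_le_mul_of_nonneg_left (EE_mono F d hm2) (by linarith))
      · calc y * (c0 * Kw * (2 ^ x * V)) = y * (c0 * Kw) * (2 ^ x * V) := by ring
          _ ≤ D1 * (2 ^ x * V) := mul_le_mul_of_nonneg_right hyc (by positivity)
          _ ≤ D1 * (2 ^ x * v) := mul_le_mul_of_nonneg_left (mul_le_mul_of_nonneg_left hVv hp0.le) hD10.le
          _ = D' := by rw [hD']; ring
    · -- dear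
      intro y' hy'
      rw [← hM] at hy' ⊢
      have hm4 : 2 ^ (x + h) ≤ 4 * (M * T) := by omega
      have h1 := hwin (M * T) hm4 hMT sg hsg
      refine dear_out (R := M) (C := C) hD hd (hA.le.trans hA0) hA1 hCi hN (by linarith) (by linarith) hM1' hKC (by linarith) ?_
        (by omega) hsg h1.2.2 ?_ hy'
      · push_cast
        have h2 : (T : ℝ) ≤ 2 ^ (x + h) := by exact_mod_cast hT2
        exact mul_le_mul_of_nonneg_left h2 (by linarith)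
      · refine le_trans (mul_le_mul_of_nonneg_left ?_ (Nat.cast_nonneg _)) h1.2.2
        linarith [h1.1]
  refine ⟨d.v + 1 * (vs A F d 1 (2 ^ (x + L)) - e0), d.v + -1 * (vs A F d (-1) (2 ^ (x + L)) - e0), ?_, ?_, ?_, ?_⟩
  · rw [← hv]
    linarith
  · have h1 := habs 1 (Or.inl rfl)
    rw [← hv]
    have e1 : d.v + 1 * (vs A F d 1 (2 ^ (x + L)) - e0) - d.v = 1 * (vs A F d 1 (2 ^ (x + L)) - e0) := by ring
    rw [e1]
    have h2 : 0 ≤ C * M * v := by positivity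
    linarith
  · have h1 := habs (-1) (Or.inr rfl)
    rw [← hv]
    have e1 : d.v + -1 * (vs A F d (-1) (2 ^ (x + L)) - e0) - d.v = -1 * (vs A F d (-1) (2 ^ (x + L)) - e0) := by ring
    rw [e1]
    have h2 : 0 ≤ C * M * v := by positivity
    linarith
  · intro T hT1 hT2 s hs
    obtain ⟨sg, hsg, rfl⟩ : ∃ sg : ℝ, (sg = 1 ∨ sg = -1) ∧ s = d.v + sg * (vs A F d sg (2 ^ (x + L)) - e0) := by
      rcases hs with h1 | h1
      · exact ⟨1, Or.inl rfl, h1⟩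
      · exact ⟨-1, Or.inr rfl, h1⟩
    have hfloor : |((⌊(d.v + sg * (vs A F d sg (2 ^ (x + L)) - e0)) * T⌋ : ℤ) : ℝ) -
        (d.v + sg * (vs A F d sg (2 ^ (x + L)) - e0)) * T| ≤ 1 := by
      have h1 := Int.floor_le ((d.v + sg * (vs A F d sg (2 ^ (x + L)) - e0)) * T)
      have h2 := Int.lt_floor_add_one ((d.v + sg * (vs A F d sg (2 ^ (x + L)) - e0)) * T)
      rw [abs_le]
      constructor <;> linarith
    obtain ⟨h1, h2⟩ := htb sg hsg T hT1 hT2 _ hfloor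
    have hDD : D' ≤ D * (vA A F d (2 ^ x) * 2 ^ x) := by
      rw [hD', ← hv]
      exact mul_le_mul_of_nonneg_right hD1D (by positivity)
    obtain ⟨h3, h4⟩ := XT_mono hDD h1
    refine ⟨h3, ?_⟩
    have h5 := integral_mono (XT_int h3) (XT_int h1) h4
    have h6 : EE F d (M * T) ≤ M * EE F d (2 ^ (x + h)) :=
      (EE_mul F d T hM1).trans (mul_le_mul_of_nonneg_left (EE_mono F d hT2) (by linarith))
    have h7 := mul_le_mul_of_nonneg_left h6 (by linarith : (0 : ℝ) ≤ C)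
    have h8 := EE_pos F d (2 ^ (x + h))
    linarith

theorem inW_of (hD : Dirs F κ K Ds) (hA : 0 < A) (hA0 : A ≤ A0) (hA1 : A0 < A1) {C' : ℝ} (hc0 : 0 < c0)
    (hch : ChI F Ds A c0 C') {t0 C1 : ℝ} (ht0 : 0 < t0) (hC1 : 0 ≤ C1) {n0 : ℕ} (htl : TlU F Ds 1 t0 C1 n0) :
    InW F Ds A A0 A1 c0 := by
  obtain ⟨Ci, c1, hCi, hc1, h⟩ := Pool.Agent.W_1b8d5d_p11.in_both hD hA hA0 hA1 (c2 := 1) (Cf := 8) (CS := 6 / c0 + 1)
    one_pos (by norm_num) (by positivity) hc0 hch ht0 hC1 htl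
  refine ⟨Ci, max c1 1, n0, hCi, le_max_right _ _, fun d hd N hN w S hw hS hSN hom hr hr' hf y hy1 hy2 => ?_⟩
  have e1 := hom 1 (Or.inl rfl)
  have e2 := hom (-1) (Or.inr rfl)
  rw [vs_one, vs_one] at e1
  rw [vs_neg, vs_neg] at e2
  refine (h d hd N hN w S hw hS hSN (by rw [one_mul]; exact e1) (by rw [one_mul]; exact e2) hr hr' hf y
    (by linarith) (by linarith)).trans ?_
  exact mul_le_mul_of_nonneg_right (le_max_left _ _) (EE_pos F d N).le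

/-- **(TF)** for a family of directions, every `θ < 1`: from the law, the rate and the growth of the units, and (CHEAP). -/
theorem tf_all {a0 b0 : ℝ} (hL : LawH F a0 b0) (hD : Dirs F κ K Ds) (hR : Rate F Ds) (hG : Grow F Ds) (hA : 0 < A)
    {C' : ℝ} (hc0 : 0 < c0) (hch : CheapI A F Ds c0 C') (hθ : θ < 1) : TFH θ A F Ds := by
  obtain ⟨t0, C1, n0, ht0, hC1, hn0, htl⟩ := tlU_all hL hD hR hG (H := 1) le_rfl
  have h1 : InW F Ds A A (A + 1) c0 := inW_of hD hA le_rfl (by linarith) hc0 (chI_of hch) ht0 (by linarith) htl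
  exact tf0 hD (mcr_of hL hD) (vn_of hD) hR hA le_rfl (by linarith) hc0 h1 hθ

end

end Pool.Agent.W_1b8d5d_p28
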