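import Pool.Agent.W_1b8d5d_p.Width99
import Pool.Agent.W_1b8d5d_p.EdOut30

/-!
MP_1b8d5d_pr, Track P, proofs row 645, input (TF), real analysis: in a slow window with a flat width both edges are thin and do not
move. (helper28)
-/

namespace Pool.Agent.W_1b8d5d_p28

open MeasureTheory Set
open Pool.Agent.W_1b8d5d_h85 (V nm dir Edge Env grid ke wedges cost Bd sh rf)
open Pool.Agent.W_1b8d5d_p

noncomputable section

variable {F : Fm} {κ K A A0 A1 θ : ℝ} {d : Dr} {Ds : Set Dr}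

theorem slow_EE {x j : ℕ} (hs : gg F d (x + j) ≤ gg F d x + θ * j) :
    EE F d (2 ^ (x + j)) ≤ (2 : ℝ) ^ (θ * j) * EE F d (2 ^ x) := by
  rw [← pow_gg, ← pow_gg, ← Real.rpow_add two_pos]
  exact Real.rpow_le_rpow_of_exponent_le one_le_two (by linarith)

/-- The level at the top of the window. -/
theorem top_lev (hA : 0 ≤ A) (hA0 : A ≤ A0) {x L q m : ℕ} (hs : gg F d (x + L) ≤ gg F d x + θ * L) (hq : θ * L + q ≤ L)
    (h1 : 2 ^ x ≤ m) (h2 : m ≤ 2 ^ (x + q)) :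
    A * EE F d (2 ^ (x + L)) / (2 ^ (x + L) : ℕ) ≤ A0 * EE F d m / m := by
  have hm : 1 ≤ m := Nat.one_le_two_pow.trans h1
  have hm0 : (0 : ℝ) < m := by exact_mod_cast hm
  have h3 := slow_EE hs
  have h4 := EE_mono F d h1
  have h5 : (m : ℝ) ≤ 2 ^ x * 2 ^ q := by
    rw [← pow_add]
    exact_mod_cast h2
  have hE := EE_pos F d (2 ^ x)
  have h6 : (2 : ℝ) ^ (θ * L) * 2 ^ q ≤ 2 ^ L := by
    rw [← Real.rpow_natCast 2 q, ← Real.rpow_add two_pos, ← Real.rpow_natCast 2 L]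
    exact Real.rpow_le_rpow_of_exponent_le one_le_two hq
  have h7 : (0 : ℝ) < (2 : ℝ) ^ (θ * L) := by positivity
  have key : EE F d (2 ^ (x + L)) * m ≤ EE F d m * (2 ^ (x + L) : ℕ) := by
    push_cast
    calc EE F d (2 ^ (x + L)) * m ≤ ((2 : ℝ) ^ (θ * L) * EE F d (2 ^ x)) * (2 ^ x * 2 ^ q) :=
          mul_le_mul h3 h5 hm0.le (by positivity)
      _ = ((2 : ℝ) ^ (θ * L) * 2 ^ q) * (EE F d (2 ^ x) * 2 ^ x) := by ring
      _ ≤ 2 ^ L * (EE F d m * 2 ^ x) := by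
          refine mul_le_mul h6 (mul_le_mul_of_nonneg_right h4 (by positivity)) (by positivity) (by positivity)
      _ = _ := by rw [pow_add]; ring
  have hE2 := EE_pos F d m
  rw [div_le_div_iff₀ (by positivity) hm0]
  calc A * EE F d (2 ^ (x + L)) * m = A * (EE F d (2 ^ (x + L)) * m) := by ring
    _ ≤ A * (EE F d m * (2 ^ (x + L) : ℕ)) := mul_le_mul_of_nonneg_left key hA
    _ ≤ A0 * (EE F d m * (2 ^ (x + L) : ℕ)) := mul_le_mul_of_nonneg_right hA0 (by positivity)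
    _ = _ := by ring

/-- The level at the bottom of the window. -/
theorem bot_lev (hA : 0 ≤ A) (hA1 : 0 ≤ A1) {x h q j0 m : ℕ} (hs : gg F d (x + q) ≤ gg F d x + θ * q)
    (hq : A1 * (2 : ℝ) ^ (θ * q + 2) ≤ A * 2 ^ h) (h1 : 2 ^ (x + h) ≤ 4 * m) (h2 : m ≤ 2 ^ (x + q)) (hj : j0 ≤ x) :
    A1 * EE F d m / m ≤ A * EE F d (2 ^ (x - j0)) / (2 ^ (x - j0) : ℕ) := by
  have hm : 1 ≤ m := by
    have : 0 < 2 ^ (x + h) := by positivity
    omega
  have hm0 : (0 : ℝ) < m := by exact_mod_cast hm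
  have h3 := slow_EE hs
  have h4 := EE_mono F d h2
  have hE := EE_pos F d (2 ^ x)
  have h5 : (2 : ℝ) ^ x * 2 ^ h ≤ 4 * m := by
    rw [← pow_add]
    exact_mod_cast h1
  have h6 : A * EE F d (2 ^ x) / (2 ^ x : ℕ) ≤ A * EE F d (2 ^ (x - j0)) / (2 ^ (x - j0) : ℕ) := by
    have h7 := EE_div_mul F d (n := 2 ^ (x - j0)) (k := 2 ^ j0) Nat.one_le_two_pow Nat.one_le_two_pow
    rw [← pow_add, Nat.add_sub_cancel' hj] at h7
    rw [mul_div_assoc, mul_div_assoc]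
    exact mul_le_mul_of_nonneg_left h7 hA
  refine le_trans ?_ h6
  push_cast
  rw [div_le_div_iff₀ hm0 (by positivity)]
  have h8 : (2 : ℝ) ^ (θ * q + 2) = 2 ^ (θ * q) * 4 := by
    rw [Real.rpow_add two_pos]
    norm_num
  rw [h8] at hq
  have h9 : EE F d m ≤ (2 : ℝ) ^ (θ * q) * EE F d (2 ^ x) := h4.trans h3
  have h10 : 4 * (A1 * EE F d m * 2 ^ x) ≤ 4 * (A * EE F d (2 ^ x) * m) := by
    calc 4 * (A1 * EE F d m * 2 ^ x) ≤ 4 * (A1 * ((2 : ℝ) ^ (θ * q) * EE F d (2 ^ x)) * 2 ^ x) := by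
          refine mul_le_mul_of_nonneg_left (mul_le_mul_of_nonneg_right (mul_le_mul_of_nonneg_left h9 hA1) ?_) (by norm_num)
          positivity
      _ = A1 * ((2 : ℝ) ^ (θ * q) * 4) * (EE F d (2 ^ x) * 2 ^ x) := by ring
      _ ≤ A * 2 ^ h * (EE F d (2 ^ x) * 2 ^ x) := mul_le_mul_of_nonneg_right hq (by positivity)
      _ = A * EE F d (2 ^ x) * (2 ^ x * 2 ^ h) := by ring
      _ ≤ A * EE F d (2 ^ x) * (4 * m) := mul_le_mul_of_nonneg_left h5 (by positivity)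
      _ = _ := by ring
  linarith

theorem vA_vs (A : ℝ) (F : Fm) (d : Dr) (n : ℕ) : vA A F d n = vs A F d 1 n + vs A F d (-1) n := by
  rw [vs_one, vs_neg]
  rfl

/-- **Flat windows.** Both edges are thin and do not move. `q = h + r`. -/
theorem flat (hD : Dirs F κ K Ds) (hd : d ∈ Ds) (hA : 0 < A) (hA0 : A ≤ A0) (hA1 : A0 ≤ A1) {x L h q j0 : ℕ} {y : ℝ} (hy : 0 < y)
    (hs1 : gg F d (x + L) ≤ gg F d x + θ * L) (hs2 : gg F d (x + q) ≤ gg F d x + θ * q) (hL : θ * L + q ≤ L)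
    (hh : 2 ≤ h) (hq : A1 * (2 : ℝ) ^ (θ * q + 2) ≤ A * 2 ^ h) (hj : j0 ≤ x)
    (hf : ff A F d (x + L) < ff A F d (x - j0) + Real.logb 2 (1 + y)) :
    vA A F d (2 ^ (x - j0)) ≤ (1 + y) * vA A F d (2 ^ (x + L)) ∧ vA A F d (2 ^ (x + L)) ≤ vA A F d (2 ^ x) ∧
      vA A F d (2 ^ x) ≤ (1 + y) * vA A F d (2 ^ (x + L)) ∧
      ∀ m : ℕ, 2 ^ (x + h) ≤ 4 * m → m ≤ 2 ^ (x + q) → 2 ^ x ≤ m ∧ vA A F d (2 ^ (x + L)) ≤ vA A F d m ∧
        vA A F d m ≤ (1 + y) * vA A F d (2 ^ (x + L)) ∧ ∀ sg : ℝ, sg = 1 ∨ sg = -1 →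
          vs A F d sg (2 ^ (x + L)) ≤ vs A0 F d sg m ∧
          vs A1 F d sg m ≤ vs A F d sg (2 ^ (x + L)) + y * vA A F d (2 ^ (x + L)) := by
  have hA' : 0 ≤ A0 := hA.le.trans hA0
  have hA1' : 0 ≤ A1 := hA'.trans hA1
  have hV : 0 < vA A F d (2 ^ (x + L)) := hD.vA_pos hd hA Nat.one_le_two_pow
  have hb : vA A F d (2 ^ (x - j0)) ≤ (1 + y) * vA A F d (2 ^ (x + L)) := by
    rw [← pow_ff hD hA hd, ← pow_ff hD hA hd]
    have h1 : (1 + y) = (2 : ℝ) ^ Real.logb 2 (1 + y) := (Real.rpow_logb two_pos (by norm_num) (by linarith)).symm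
    rw [h1, ← Real.rpow_add two_pos]
    exact Real.rpow_le_rpow_of_exponent_le one_le_two (by linarith)
  have hm1 : vA A F d (2 ^ (x + L)) ≤ vA A F d (2 ^ x) := by
    rw [← pow_ff hD hA hd, ← pow_ff hD hA hd]
    exact Real.rpow_le_rpow_of_exponent_le one_le_two (neg_le_neg (ff_mono hD hA hd (Nat.le_add_right x L)))
  have hm2 : vA A F d (2 ^ x) ≤ vA A F d (2 ^ (x - j0)) := by
    rw [← pow_ff hD hA hd, ← pow_ff hD hA hd]
    exact Real.rpow_le_rpow_of_exponent_le one_le_two (neg_le_neg (ff_mono hD hA hd (Nat.sub_le x j0)))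
  refine ⟨hb, hm1, hm2.trans hb, fun m h1 h2 => ?_⟩
  have hxm : 2 ^ x ≤ m := by
    have h3 : 2 ^ (x + 2) ≤ 2 ^ (x + h) := Nat.pow_le_pow_right (by norm_num) (by omega)
    have h4 : 2 ^ (x + 2) = 4 * 2 ^ x := by ring
    omega
  have hm : 1 ≤ m := Nat.one_le_two_pow.trans hxm
  have hl1 : A * EE F d (2 ^ (x + L)) / (2 ^ (x + L) : ℕ) ≤ A0 * EE F d m / m := top_lev hA.le hA0 hs1 hL hxm h2
  have hl1' : A * EE F d (2 ^ (x + L)) / (2 ^ (x + L) : ℕ) ≤ A * EE F d m / m := top_lev hA.le le_rfl hs1 hL hxm h2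
  have hl2 : A1 * EE F d m / m ≤ A * EE F d (2 ^ (x - j0)) / (2 ^ (x - j0) : ℕ) := bot_lev hA.le hA1' hs2 hq h1 h2 hj
  have hsg : ∀ sg : ℝ, sg = 1 ∨ sg = -1 → vs A F d sg (2 ^ (x + L)) ≤ vs A0 F d sg m ∧ vs A F d sg (2 ^ (x + L)) ≤ vs A F d sg m ∧
      vs A1 F d sg m ≤ vs A F d sg (2 ^ (x - j0)) := by
    intro sg hsg
    refine ⟨(ed_rf hD hd hsg).wR_mono (lev_nonneg hA.le) hl1, (ed_rf hD hd hsg).wR_mono (lev_nonneg hA.le) hl1',
      (ed_rf hD hd hsg).wR_mono (lev_nonneg hA1') hl2⟩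
  have hp := hsg 1 (Or.inl rfl)
  have hm' := hsg (-1) (Or.inr rfl)
  have hmp : vs A F d 1 m ≤ vs A1 F d 1 m := vs_mono hD hd (Or.inl rfl) hA.le (hA0.trans hA1)
  have hmm : vs A F d (-1) m ≤ vs A1 F d (-1) m := vs_mono hD hd (Or.inr rfl) hA.le (hA0.trans hA1)
  have e1 := vA_vs A F d (2 ^ (x + L))
  have e2 := vA_vs A F d (2 ^ (x - j0))
  have e3 := vA_vs A F d m
  have m1 : vs A0 F d 1 m ≤ vs A1 F d 1 m := vs_mono hD hd (Or.inl rfl) hA' hA1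
  have m2 : vs A0 F d (-1) m ≤ vs A1 F d (-1) m := vs_mono hD hd (Or.inr rfl) hA' hA1
  refine ⟨hxm, by linarith, by linarith, fun sg hsg' => ⟨(hsg sg hsg').1, ?_⟩⟩
  rcases hsg' with rfl | rfl
  · linarith [hp.2.2]
  · linarith [hm'.2.2]

/-- Convexity: below the scale the width grows at most linearly in the inverse of the duration, with a small factor. -/
theorem wR_below {J : ℝ → ℝ} (h : Rf J) {B0 B1 B' q : ℝ} (h1 : 0 ≤ B1) (h0 : 0 < B0) (h10 : 2 * B1 ≤ B0) (hq : 0 ≤ q)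
    (hB : B' ≤ q * B0) (hB' : 0 ≤ B') : wR J B' ≤ wR J B0 + 2 * (wR J B0 - wR J B1) * q := by
  have hm : wR J B1 ≤ wR J B0 := h.wR_mono h1 (by linarith)
  rcases le_or_gt (wR J B') (wR J B0) with hc | hc
  · have : 0 ≤ 2 * (wR J B0 - wR J B1) * q := mul_nonneg (by linarith) hq
    linarith
  obtain ⟨R1, hR1⟩ : ∃ R1, R1 = wR J B1 := ⟨_, rfl⟩
  obtain ⟨R0, hR0⟩ : ∃ R0, R0 = wR J B0 := ⟨_, rfl⟩
  obtain ⟨R', hR'⟩ : ∃ R', R' = wR J B' := ⟨_, rfl⟩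
  have j1 : J R1 = B1 := by rw [hR1]; exact h.J_wR h1
  have j0 : J R0 = B0 := by rw [hR0]; exact h.J_wR h0.le
  have j' : J R' = B' := by rw [hR']; exact h.J_wR hB'
  rw [← hR1, ← hR0] at hm
  rw [← hR', ← hR0] at hc
  rw [← hR', ← hR0, ← hR1]
  have hlt : R1 < R0 := by
    refine lt_of_le_of_ne hm fun hcon => ?_
    rw [hcon, j0] at j1
    linarith
  have hden : 0 < R' - R1 := by linarith
  have ha1 : 0 ≤ (R' - R0) / (R' - R1) := div_nonneg (by linarith) hden.le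
  have ha2 : 0 ≤ (R0 - R1) / (R' - R1) := div_nonneg (by linarith) hden.le
  have ha3 : (R' - R0) / (R' - R1) + (R0 - R1) / (R' - R1) = 1 := by
    rw [← add_div, div_eq_one_iff_eq hden.ne']
    ring
  have hcv := h.conv.2 (mem_univ R1) (mem_univ R') ha1 ha2 ha3
  simp only [smul_eq_mul] at hcv
  have e1 : (R' - R0) / (R' - R1) * R1 + (R0 - R1) / (R' - R1) * R' = R0 := by
    field_simp
    ring
  rw [e1, j0, j1, j'] at hcv
  have h2 : B0 * (R' - R1) ≤ (R' - R0) * B1 + (R0 - R1) * B' := by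
    have h3 := mul_le_mul_of_nonneg_right hcv hden.le
    have e2 : ((R' - R0) / (R' - R1) * B1 + (R0 - R1) / (R' - R1) * B') * (R' - R1) = (R' - R0) * B1 + (R0 - R1) * B' := by
      field_simp
    rwa [e2] at h3
  have h4 : (R0 - R1) * B' ≤ (R0 - R1) * (q * B0) := mul_le_mul_of_nonneg_left hB (by linarith)
  have h5 : (R' - R0) * B1 ≤ (R' - R0) * (B0 / 2) := mul_le_mul_of_nonneg_left (by linarith) (by linarith)
  have h6 : (R' - R0) * (B0 / 2) ≤ (R0 - R1) * (q * B0) - B0 * (R0 - R1) := by nlinarith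
  have h7 : (R' - R0) * (B0 / 2) ≤ (2 * (R0 - R1) * q) * (B0 / 2) := by
    have : 0 ≤ B0 * (R0 - R1) := mul_nonneg h0.le (by linarith)
    nlinarith
  have h8 := le_of_mul_le_mul_right h7 (by linarith : 0 < B0 / 2)
  linarith

/-- **Slow variation of the width below a flat window.** -/
theorem below (hD : Dirs F κ K Ds) (hd : d ∈ Ds) (hA : 0 < A) {x L : ℕ} (hs : gg F d (x + L) ≤ gg F d x + θ * L)
    (hL : θ * L + 1 ≤ L) {S : ℕ} (hS : 1 ≤ S) (hSx : S ≤ 2 ^ x) :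
    vA A F d S ≤ vA A F d (2 ^ x) + 2 * (vA A F d (2 ^ x) - vA A F d (2 ^ (x + L))) * (2 ^ x / S) := by
  have hE := EE_pos F d (2 ^ x)
  have hEL := EE_pos F d (2 ^ (x + L))
  have hES := EE_pos F d S
  have hS0 : (0 : ℝ) < S := by exact_mod_cast hS
  have hx0 : (0 : ℝ) < 2 ^ x := by positivity
  obtain ⟨B0, hB0⟩ : ∃ B0 : ℝ, B0 = A * EE F d (2 ^ x) / (2 ^ x : ℕ) := ⟨_, rfl⟩
  obtain ⟨B1, hB1⟩ : ∃ B1 : ℝ, B1 = A * EE F d (2 ^ (x + L)) / (2 ^ (x + L) : ℕ) := ⟨_, rfl⟩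
  obtain ⟨B', hB'⟩ : ∃ B' : ℝ, B' = A * EE F d S / S := ⟨_, rfl⟩
  have h0 : 0 < B0 := by rw [hB0]; positivity
  have h1 : 0 ≤ B1 := by rw [hB1]; positivity
  have h' : 0 ≤ B' := by rw [hB']; positivity
  have h10 : 2 * B1 ≤ B0 := by
    rw [hB1, hB0]
    push_cast
    have e0 : (2 : ℝ) ^ (x + L) = 2 ^ x * 2 ^ L := pow_add _ _ _
    rw [← mul_div_assoc, div_le_div_iff₀ (by positivity) hx0, e0]
    have h3 := slow_EE hs
    have h6 : (2 : ℝ) ^ (θ * L) * 2 ≤ 2 ^ L := by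
      have e1 : (2 : ℝ) ^ (θ * L) * 2 = 2 ^ (θ * L + 1) := by rw [Real.rpow_add two_pos, Real.rpow_one]
      rw [e1, ← Real.rpow_natCast 2 L]
      exact Real.rpow_le_rpow_of_exponent_le one_le_two hL
    calc 2 * (A * EE F d (2 ^ (x + L))) * 2 ^ x ≤ 2 * (A * ((2 : ℝ) ^ (θ * L) * EE F d (2 ^ x))) * 2 ^ x := by
          refine mul_le_mul_of_nonneg_right (mul_le_mul_of_nonneg_left (mul_le_mul_of_nonneg_left h3 hA.le) two_pos.le) hx0.le
      _ = ((2 : ℝ) ^ (θ * L) * 2) * (A * EE F d (2 ^ x) * 2 ^ x) := by ring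
      _ ≤ 2 ^ L * (A * EE F d (2 ^ x) * 2 ^ x) := mul_le_mul_of_nonneg_right h6 (by positivity)
      _ = _ := by ring
  have hB : B' ≤ (2 ^ x / S) * B0 := by
    rw [hB', hB0]
    push_cast
    have e1 : (2 : ℝ) ^ x / S * (A * EE F d (2 ^ x) / 2 ^ x) = A * EE F d (2 ^ x) / S := by
      field_simp
    rw [e1]
    exact div_le_div_of_nonneg_right (mul_le_mul_of_nonneg_left (EE_mono F d hSx) hA.le) hS0.le
  have hp := wR_below (hD.rf hd) h1 h0 h10 (by positivity : (0 : ℝ) ≤ 2 ^ x / S) hB h'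
  have hm := wR_below (hD.rf hd).neg h1 h0 h10 (by positivity : (0 : ℝ) ≤ 2 ^ x / S) hB h'
  unfold vA vr vl wL
  rw [← hB0, ← hB1, ← hB']
  linarith

end

end Pool.Agent.W_1b8d5d_p28
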